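import Pool.Agent.N229.SC.Stm

/-!
Project SC (helper229), problem MP_83fd13_an: part TR, transfer from `ℂ` to `EuclideanSpace ℝ (Fin 2)`.
-/

set_option autoImplicit false

open Set Filter Topology MeasureTheory

namespace Run7.h298.SC

open Pool.Agent.N229.SC

/-- The plane. -/
abbrev E2 := EuclideanSpace ℝ (Fin 2)

/-- The isometry. -/
noncomputable def T : ℂ ≃ₗᵢ[ℝ] E2 := Complex.orthonormalBasisOneI.repr

theorem T_int (Ω : Set ℂ) (F : E2 → ℝ) :
    ∫ x in T '' Ω, F x = ∫ z in Ω, F (T z) :=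
  (T.measurePreserving).setIntegral_image_emb T.toHomeomorph.measurableEmbedding F Ω

theorem T_mp (Ω : Set ℂ) : MeasurePreserving T.symm (volume.restrict (T '' Ω))
    (volume.restrict Ω) := by
  have h1 := (T.symm.measurePreserving).restrict_preimage_emb
    T.symm.toHomeomorph.measurableEmbedding Ω
  have h2 : T.symm ⁻¹' Ω = T '' Ω := by
    rw [← T.image_eq_preimage_symm]
  rwa [h2] at h1

theorem T_fderiv {φ : E2 → ℝ} (hφ : ContDiff ℝ 1 φ) (z w : ℂ) :
    fderiv ℝ (fun z => φ (T z)) z w = fderiv ℝ φ (T z) (T w) := by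
  have h1 : HasFDerivAt φ (fderiv ℝ φ (T z)) (T z) :=
    (hφ.differentiable one_ne_zero (T z)).hasFDerivAt
  have h2 : HasFDerivAt (fun z : ℂ => T z) (T.toContinuousLinearEquiv : ℂ →L[ℝ] E2) z :=
    T.toContinuousLinearEquiv.hasFDerivAt
  have h3 := h1.comp z h2
  have h4 : fderiv ℝ (fun z => φ (T z)) z = (fderiv ℝ φ (T z)).comp
      (T.toContinuousLinearEquiv : ℂ →L[ℝ] E2) := h3.fderiv
  rw [h4]
  rfl

theorem tr : S_TR := by
  rintro ⟨Ω, hO, hB, hC, hS, hF, hL, hN, lam, c, u, G, hlam, hu, hG, h1, h2, h0⟩ H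
  have hfr : frontier (T '' Ω) = T '' frontier Ω := (T.toHomeomorph.image_frontier Ω).symm
  refine absurd (H (T '' Ω) (T.toHomeomorph.isOpenMap _ hO)
    (T.isometry.lipschitz.isBounded_image hB) (hC.image _ T.continuous.continuousOn) ?_ ?_ ?_
    lam c (fun x => u (T.symm x)) (fun x => T (G (T.symm x))) hlam ?_ ?_ ?_ ?_ ?_) ?_
  rotate_right
  · rintro ⟨a, r, har⟩
    apply hN (T.symm a) r
    rw [← T.symm.image_ball, ← har, ← image_comp]
    simp
  · have e : Ω ≃ₜ (T '' Ω) := T.toHomeomorph.image Ω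
    exact e.symm.toHomotopyEquiv.simplyConnectedSpace
  · obtain ⟨e⟩ := hF
    have e1 : frontier Ω ≃ₜ (T '' frontier Ω) := T.toHomeomorph.image (frontier Ω)
    have e2 : Metric.sphere (0 : ℂ) 1 ≃ₜ (T '' Metric.sphere (0 : ℂ) 1) :=
      T.toHomeomorph.image _
    have h3 : T '' Metric.sphere (0 : ℂ) 1 = Metric.sphere (0 : E2) 1 := by
      rw [T.image_sphere, map_zero]
    rw [h3] at e2
    rw [hfr]
    exact ⟨e1.symm.trans (e.trans e2)⟩
  · intro p hp
    rw [hfr] at hp
    obtain ⟨p, hp, rfl⟩ := hp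
    obtain ⟨e, g, he, hg, heg, s, hs, K, γ, hγ, hx⟩ := hL p hp
    refine ⟨T e, T g, by rw [T.norm_map]; exact he, by rw [T.norm_map]; exact hg,
      by rw [T.inner_map_map]; exact heg, s, hs, K, γ, hγ, ?_⟩
    intro x hx'
    obtain ⟨x, rfl⟩ := T.surjective x
    rw [T.inner_map_map, T.inner_map_map, T.injective.mem_set_image]
    apply hx
    rw [Metric.mem_ball, T.dist_map] at hx'
    exact hx'
  · exact hu.comp_measurePreserving (T_mp Ω)
  · have h3 := hG.comp_measurePreserving (T_mp Ω)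
    exact (T.toContinuousLinearEquiv : ℂ →L[ℝ] E2).comp_memLp' h3
  · intro φ hφ hφs v
    obtain ⟨v, rfl⟩ := T.surjective v
    rw [T_int, T_int]
    have h3 := h1 (fun z => φ (T z)) (hφ.comp T.toContinuousLinearEquiv.contDiff)
      (hφs.comp_homeomorph T.toHomeomorph) v
    simp only [T_fderiv hφ] at h3
    simp only [T.symm_apply_apply, T.inner_map_map]
    exact h3
  · intro φ hφ hφs
    rw [T_int, T_int]
    have h3 := h2 (fun z => φ (T z)) (hφ.comp T.toContinuousLinearEquiv.contDiff)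
      (hφs.comp_homeomorph T.toHomeomorph)
    simp only [T_fderiv hφ] at h3
    simp only [T.symm_apply_apply]
    exact h3
  · intro h3
    apply h0
    have h4 : MeasurePreserving T (volume.restrict Ω) (volume.restrict (T '' Ω)) := by
      have h5 := (T.measurePreserving).restrict_image_emb T.toHomeomorph.measurableEmbedding Ω
      exact h5
    have h5 := h4.quasiMeasurePreserving.ae_eq_comp h3
    filter_upwards [h5] with z hz
    simpa using hz

end Run7.h298.SC
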