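import Pool.Agent.Run7.h242.SC.Iface

/-!
# Piece TRA of project SC (page MP_a6162f_an): the translation inequality
-/

set_option autoImplicit false

namespace Run7.h242.SC

open MeasureTheory Set Filter Topology Metric
open scoped ContDiff ENNReal NNReal

namespace TRA

variable {n : ℕ}

lemma isOpen_U {Ω : Set (E n)} (hΩ : IsOpen Ω) (v : E n) (h : ℝ) :
    IsOpen {x : E n | ∀ t ∈ Icc (0 : ℝ) h, x + t • v ∈ Ω} := by
  rw [isOpen_iff_eventually]
  intro x hx
  refine isCompact_Icc.eventually_forall_of_forall_eventually (fun t ht => ?_)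
  have hc : Continuous (fun z : E n × ℝ => z.1 + z.2 • v) := by fun_prop
  exact hc.continuousAt.eventually (hΩ.mem_nhds (hx t ht))

/-- Integrability of the translates on the product. -/
lemma integrable_shift {G0 : E n → ℝ} (hm : StronglyMeasurable G0) (hG : Integrable G0)
    (v : E n) (h : ℝ) :
    Integrable (fun p : ℝ × E n => G0 (p.2 + p.1 • v))
      ((volume.restrict (Icc (0 : ℝ) h)).prod volume) := by
  have hc : Continuous (fun p : ℝ × E n => p.2 + p.1 • v) := by fun_prop
  have hsm : AEStronglyMeasurable (fun p : ℝ × E n => G0 (p.2 + p.1 • v))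
      ((volume.restrict (Icc (0 : ℝ) h)).prod volume) :=
    (hm.comp_measurable hc.measurable).aestronglyMeasurable
  rw [integrable_prod_iff hsm]
  refine ⟨Eventually.of_forall fun t => hG.comp_add_right (t • v), ?_⟩
  have : (fun t : ℝ => ∫ y : E n, ‖G0 ((t, y).2 + (t, y).1 • v)‖) =
      fun _ => ∫ y : E n, ‖G0 y‖ := by
    funext t
    exact integral_add_right_eq_self (fun y => ‖G0 y‖) (t • v)
  rw [this]
  exact integrable_const _

lemma key {Ω : Set (E n)} {v : E n} {g G0 : E n → ℝ} (hΩ : IsOpen Ω)
    (hg : ContinuousOn g Ω) (hm : StronglyMeasurable G0) (hG : Integrable G0)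
    (hw : ∀ φ : E n → ℝ, ContDiff ℝ ∞ φ → HasCompactSupport φ → tsupport φ ⊆ Ω →
      ∫ x in Ω, g x * fderiv ℝ φ x v = - ∫ x, G0 x * φ x)
    {h : ℝ} (hh : 0 ≤ h) (φ : E n → ℝ) (hφ : ContDiff ℝ ∞ φ) (hφc : HasCompactSupport φ)
    (hφU : tsupport φ ⊆ {x : E n | ∀ t ∈ Icc (0 : ℝ) h, x + t • v ∈ Ω}) :
    ∫ x, φ x * (g (x + h • v) - g x) =
      ∫ x, φ x * ∫ t in Icc (0 : ℝ) h, G0 (x + t • v) := by
  set K' : Set (E n) := (fun p : ℝ × E n => p.2 + p.1 • v) '' (Icc (0 : ℝ) h ×ˢ tsupport φ)
    with hK'
  have hK'c : IsCompact K' := by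
    refine (isCompact_Icc.prod hφc).image ?_
    fun_prop
  have hK'Ω : K' ⊆ Ω := by
    rintro _ ⟨⟨t, x⟩, ⟨ht, hx⟩, rfl⟩
    exact hφU hx t ht
  have hK'm : MeasurableSet K' := hK'c.measurableSet
  set k : E n → ℝ := K'.indicator g with hk
  have hki : Integrable k := by
    rw [hk, integrable_indicator_iff hK'm]
    exact (hg.mono hK'Ω).integrableOn_compact hK'c
  -- values of `k`
  have hkval : ∀ x ∈ K', k x = g x := fun x hx => indicator_of_mem hx g
  have hmemK : ∀ t ∈ Icc (0 : ℝ) h, ∀ y : E n, y - t • v ∈ tsupport φ → y ∈ K' := by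
    intro t ht y hy
    exact ⟨(t, y - t • v), ⟨ht, hy⟩, by simp⟩
  have hφcont : Continuous φ := hφ.continuous
  have hdcont : Continuous (fun x => fderiv ℝ φ x v) :=
    (hφ.continuous_fderiv (by simp)).clm_apply continuous_const
  have hdc : HasCompactSupport (fun x => fderiv ℝ φ x v) := hφc.fderiv_apply (𝕜 := ℝ) v
  obtain ⟨M, hM⟩ : ∃ M, ∀ x, ‖fderiv ℝ φ x v‖ ≤ M := hdcont.bounded_above_of_compact_support hdc
  obtain ⟨M0, hM0⟩ : ∃ M, ∀ x, ‖φ x‖ ≤ M := hφcont.bounded_above_of_compact_support hφc
  -- Fubini 1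
  have hF1 : Integrable (fun p : ℝ × E n => k p.2 * fderiv ℝ φ (p.2 - p.1 • v) v)
      ((volume.restrict (Icc (0 : ℝ) h)).prod volume) := by
    refine Integrable.mul_bdd (c := M) (hki.comp_snd _) ?_ ?_
    · have : Continuous (fun p : ℝ × E n => fderiv ℝ φ (p.2 - p.1 • v) v) :=
        hdcont.comp (by fun_prop)
      exact this.aestronglyMeasurable
    · exact Eventually.of_forall fun p => hM _
  have hFTC : ∀ y : E n, φ (y - h • v) - φ y = - ∫ t in Icc (0 : ℝ) h,
      fderiv ℝ φ (y - t • v) v := by
    intro y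
    have hd : ∀ t ∈ uIcc (0 : ℝ) h, HasDerivAt (fun t : ℝ => φ (y - t • v))
        (- fderiv ℝ φ (y - t • v) v) t := by
      intro t _
      have h1 : HasDerivAt (fun t : ℝ => y - t • v) (-v) t := by
        have := ((hasDerivAt_id t).smul_const v).const_sub y
        simpa using this
      have h2 : HasFDerivAt φ (fderiv ℝ φ (y - t • v)) (y - t • v) :=
        (hφ.differentiable (by simp) _).hasFDerivAt
      have h3 := h2.comp_hasDerivAt t h1
      rw [map_neg] at h3
      exact h3
    have hi : IntervalIntegrable (fun t : ℝ => - fderiv ℝ φ (y - t • v) v) volume 0 h := by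
      refine Continuous.intervalIntegrable ?_ 0 h
      exact (hdcont.comp (by fun_prop)).neg
    have := intervalIntegral.integral_eq_sub_of_hasDerivAt hd hi
    simp only [zero_smul, sub_zero] at this
    rw [← this, intervalIntegral.integral_of_le hh, integral_neg, integral_Icc_eq_integral_Ioc]
  -- left side
  have hL : ∫ x, φ x * (g (x + h • v) - g x) = ∫ y, k y * (φ (y - h • v) - φ y) := by
    have e1 : ∀ x, φ x * (g (x + h • v) - g x) = φ x * (k (x + h • v) - k x) := by
      intro x
      by_cases hx : x ∈ tsupport φ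
      · have m1 : x + h • v ∈ K' := ⟨(h, x), ⟨⟨hh, le_refl h⟩, hx⟩, rfl⟩
        have m2 : x ∈ K' := ⟨(0, x), ⟨⟨le_refl 0, hh⟩, hx⟩, by simp⟩
        rw [hkval _ m1, hkval _ m2]
      · rw [image_eq_zero_of_notMem_tsupport hx]; simp
    have i1 : Integrable (fun x => k (x + h • v) * φ x) :=
      Integrable.mul_bdd (c := M0) (hki.comp_add_right (h • v)) hφcont.aestronglyMeasurable
        (Eventually.of_forall hM0)
    have i2 : Integrable (fun x => k x * φ x) :=
      Integrable.mul_bdd (c := M0) hki hφcont.aestronglyMeasurable (Eventually.of_forall hM0)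
    have i3 : Integrable (fun x => k x * φ (x - h • v)) := by
      refine Integrable.mul_bdd (c := M0) hki ?_ (Eventually.of_forall fun x => hM0 _)
      exact (hφcont.comp (by fun_prop)).aestronglyMeasurable
    calc ∫ x, φ x * (g (x + h • v) - g x)
        = ∫ x, (k (x + h • v) * φ x - k x * φ x) := by
          refine integral_congr_ae (Eventually.of_forall fun x => ?_)
          simp only
          rw [e1 x]; ring
      _ = (∫ x, k (x + h • v) * φ x) - ∫ x, k x * φ x := integral_sub i1 i2
      _ = (∫ x, k x * φ (x - h • v)) - ∫ x, k x * φ x := by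
          congr 1
          rw [← integral_add_right_eq_self (fun x => k x * φ (x - h • v)) (h • v)]
          simp
      _ = ∫ y, k y * (φ (y - h • v) - φ y) := by
          rw [← integral_sub i3 i2]
          refine integral_congr_ae (Eventually.of_forall fun x => ?_)
          simp only
          ring
  -- the weak derivative of translated test functions
  have hW : ∀ t ∈ Icc (0 : ℝ) h, ∫ y, k y * fderiv ℝ φ (y - t • v) v =
      - ∫ x, φ x * G0 (x + t • v) := by
    intro t ht
    have hφt : ContDiff ℝ ∞ (fun y => φ (y - t • v)) := hφ.comp (by fun_prop)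
    have hsub : tsupport (fun y => φ (y - t • v)) ⊆ (fun y => y - t • v) ⁻¹' tsupport φ :=
      tsupport_comp_subset_preimage φ (by fun_prop)
    have hφtc : HasCompactSupport (fun y => φ (y - t • v)) := by
      have := hφc.comp_homeomorph (Homeomorph.subRight (t • v))
      exact this
    have hφtΩ : tsupport (fun y => φ (y - t • v)) ⊆ Ω := fun y hy =>
      hK'Ω (hmemK t ht y (hsub hy))
    have hfd : ∀ y, fderiv ℝ (fun y => φ (y - t • v)) y = fderiv ℝ φ (y - t • v) := by
      intro y
      have := fderiv_comp_add_right (𝕜 := ℝ) (f := φ) (x := y) (-(t • v))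
      simpa [sub_eq_add_neg] using this
    have h1 := hw _ hφt hφtc hφtΩ
    have h2 : ∫ x in Ω, g x * fderiv ℝ (fun y => φ (y - t • v)) x v =
        ∫ y, k y * fderiv ℝ φ (y - t • v) v := by
      rw [← integral_indicator hΩ.measurableSet]
      refine integral_congr_ae (Eventually.of_forall fun x => ?_)
      simp only
      by_cases hx : x ∈ K'
      · rw [indicator_of_mem (hK'Ω hx), hfd, hkval x hx]
      · have h0 : fderiv ℝ φ (x - t • v) = 0 := by
          have : x - t • v ∉ tsupport φ := fun h' => hx (hmemK t ht x h')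
          exact image_eq_zero_of_notMem_tsupport (fun h' => this (tsupport_fderiv_subset ℝ h'))
        by_cases hxΩ : x ∈ Ω
        · rw [indicator_of_mem hxΩ, hfd, h0]; simp
        · rw [indicator_of_notMem hxΩ, h0]; simp
    rw [← h2, h1]
    congr 1
    rw [← integral_add_right_eq_self (fun x => G0 x * φ (x - t • v)) (t • v)]
    refine integral_congr_ae (Eventually.of_forall fun x => ?_)
    simp only [add_sub_cancel_right]
    ring
  -- Fubini 2
  have hF2 : Integrable (fun p : ℝ × E n => φ p.2 * G0 (p.2 + p.1 • v))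
      ((volume.restrict (Icc (0 : ℝ) h)).prod volume) := by
    refine Integrable.bdd_mul (c := M0) (integrable_shift hm hG v h) ?_ ?_
    · exact (hφcont.comp continuous_snd).aestronglyMeasurable
    · exact Eventually.of_forall fun p => hM0 _
  rw [hL]
  calc ∫ y, k y * (φ (y - h • v) - φ y)
      = - ∫ y, ∫ t in Icc (0 : ℝ) h, k y * fderiv ℝ φ (y - t • v) v := by
        rw [← integral_neg]
        refine integral_congr_ae (Eventually.of_forall fun y => ?_)
        simp only
        rw [hFTC y, integral_const_mul]; ring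
    _ = - ∫ t in Icc (0 : ℝ) h, ∫ y, k y * fderiv ℝ φ (y - t • v) v := by
        congr 1
        exact (integral_integral_swap (f := fun (t : ℝ) (y : E n) =>
          k y * fderiv ℝ φ (y - t • v) v) hF1).symm
    _ = - ∫ t in Icc (0 : ℝ) h, - ∫ x, φ x * G0 (x + t • v) := by
        congr 1
        exact setIntegral_congr_fun measurableSet_Icc hW
    _ = ∫ t in Icc (0 : ℝ) h, ∫ x, φ x * G0 (x + t • v) := by
        rw [integral_neg, neg_neg]
    _ = ∫ x, ∫ t in Icc (0 : ℝ) h, φ x * G0 (x + t • v) :=
        integral_integral_swap (f := fun (t : ℝ) (x : E n) => φ x * G0 (x + t • v)) hF2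
    _ = ∫ x, φ x * ∫ t in Icc (0 : ℝ) h, G0 (x + t • v) := by
        refine integral_congr_ae (Eventually.of_forall fun x => ?_)
        simp only
        rw [integral_const_mul]

end TRA

theorem t_TRA : S_TRA := by
  intro n Ω j g G hΩ hg hG hw h hh A hA hAΩ
  set v : E n := ee j with hv
  set U : Set (E n) := {x : E n | ∀ t ∈ Icc (0 : ℝ) h, x + t • v ∈ Ω} with hU
  have hUo : IsOpen U := TRA.isOpen_U hΩ v h
  have hGi : Integrable (Ω.indicator G) := (integrable_indicator_iff hΩ.measurableSet).2 hG
  set G0 : E n → ℝ := hGi.aestronglyMeasurable.mk _ with hG0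
  have hm : StronglyMeasurable G0 := hGi.aestronglyMeasurable.stronglyMeasurable_mk
  have hae : Ω.indicator G =ᵐ[volume] G0 := hGi.aestronglyMeasurable.ae_eq_mk
  have hG0i : Integrable G0 := hGi.congr hae
  have hw' : ∀ φ : E n → ℝ, ContDiff ℝ ∞ φ → HasCompactSupport φ → tsupport φ ⊆ Ω →
      ∫ x in Ω, g x * fderiv ℝ φ x v = - ∫ x, G0 x * φ x := by
    intro φ h1 h2 h3
    rw [hw φ h1 h2 h3, ← integral_indicator hΩ.measurableSet]
    congr 1
    refine integral_congr_ae ?_
    filter_upwards [hae] with x hx
    rw [← hx]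
    by_cases hxΩ : x ∈ Ω
    · rw [indicator_of_mem hxΩ, indicator_of_mem hxΩ]
    · rw [indicator_of_notMem hxΩ, indicator_of_notMem hxΩ]; simp
  -- the two sides agree almost everywhere on `U`
  set I : E n → ℝ := fun x => ∫ t in Icc (0 : ℝ) h, G0 (x + t • v) with hI
  have hIi : Integrable I := (TRA.integrable_shift hm hG0i v h).integral_prod_right
  have hDc : ContinuousOn (fun x => g (x + h • v) - g x) U := by
    refine ContinuousOn.sub ?_ ?_
    · refine hg.comp (by fun_prop) ?_
      intro x hx
      exact hx h ⟨hh, le_refl h⟩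
    · refine hg.mono ?_
      intro x hx
      have := hx 0 ⟨le_refl 0, hh⟩
      simpa using this
  have hEq : ∀ᵐ x, x ∈ U → (g (x + h • v) - g x) - I x = 0 := by
    refine hUo.ae_eq_zero_of_integral_contDiff_smul_eq_zero ?_ ?_
    · exact (hDc.locallyIntegrableOn hUo.measurableSet).sub
        (hIi.locallyIntegrable.locallyIntegrableOn U)
    · intro φ hφ hφc hφU
      have hk := TRA.key hΩ hg hm hG0i hw' hh φ hφ hφc hφU
      obtain ⟨M0, hM0⟩ : ∃ M, ∀ x, ‖φ x‖ ≤ M :=
        hφ.continuous.bounded_above_of_compact_support hφc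
      have i2 : Integrable (fun x => φ x * I x) :=
        Integrable.bdd_mul (c := M0) hIi hφ.continuous.aestronglyMeasurable
          (Eventually.of_forall hM0)
      have i1 : Integrable (fun x => φ x * (g (x + h • v) - g x)) := by
        have hc : Continuous (fun x => φ x * (g (x + h • v) - g x)) := by
          rw [continuous_iff_continuousAt]
          intro x
          by_cases hx : x ∈ tsupport φ
          · exact hφ.continuous.continuousAt.mul
              (hDc.continuousAt (hUo.mem_nhds (hφU hx)))
          · have : (fun x => φ x * (g (x + h • v) - g x)) =ᶠ[𝓝 x] fun _ => 0 := by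
              filter_upwards [(isClosed_tsupport φ).isOpen_compl.mem_nhds hx] with y hy
              rw [image_eq_zero_of_notMem_tsupport hy]; simp
            exact this.continuousAt
        refine hc.integrable_of_hasCompactSupport ?_
        exact hφc.mul_right
      have : (fun x => φ x • ((g (x + h • v) - g x) - I x)) =
          fun x => φ x * (g (x + h • v) - g x) - φ x * I x := by
        funext x
        simp only [smul_eq_mul]
        ring
      rw [this, integral_sub i1 i2, hk]
      exact sub_self _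
  have hAU : A ⊆ U := fun x hx => hAΩ x hx
  calc ∫⁻ x in A, ENNReal.ofReal |g (x + h • v) - g x|
      = ∫⁻ x in A, ‖I x‖ₑ := by
        refine setLIntegral_congr_fun_ae hA ?_
        filter_upwards [hEq] with x hx hxA
        rw [sub_eq_zero.1 (hx (hAU hxA)), Real.enorm_eq_ofReal_abs]
    _ ≤ ∫⁻ x in A, ∫⁻ t in Icc (0 : ℝ) h, ‖G0 (x + t • v)‖ₑ := by
        refine lintegral_mono fun x => ?_
        exact enorm_integral_le_lintegral_enorm _
    _ = ∫⁻ t in Icc (0 : ℝ) h, ∫⁻ x in A, ‖G0 (x + t • v)‖ₑ := by
        refine lintegral_lintegral_swap ?_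
        have hc : Continuous (fun p : E n × ℝ => p.1 + p.2 • v) := by fun_prop
        exact (hm.comp_measurable hc.measurable).enorm.aemeasurable
    _ = ∫⁻ t in Icc (0 : ℝ) h, ∫⁻ x in A, ENNReal.ofReal |G (x + t • v)| := by
        refine setLIntegral_congr_fun measurableSet_Icc fun t ht => ?_
        refine setLIntegral_congr_fun_ae hA ?_
        have hae' := (measurePreserving_add_right volume (t • v)).quasiMeasurePreserving.ae hae
        filter_upwards [hae'] with x hx hxA
        rw [← hx, indicator_of_mem (hAΩ x hxA t ht), Real.enorm_eq_ofReal_abs]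

end Run7.h242.SC


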