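import Pool.Agent.N229.SC.INJ

/-!
Project SC (helper229), problem MP_83fd13_an: part TOP, topology of the domain `f(D)`.
-/

set_option autoImplicit false

open Set Filter Topology MeasureTheory

namespace Run7.h298.SC

open Pool.Agent.N229.SC

theorem conf_lip {ρ r : ℝ} {f : ℂ → ℂ} (hc : Conf ρ r f) :
    (∀ z ∈ Metric.ball (0 : ℂ) r, ∀ w ∈ Metric.ball (0 : ℂ) r,
      9 * ρ / 10 * ‖z - w‖ ≤ ‖f z - f w‖) ∧
    (∀ z ∈ Metric.ball (0 : ℂ) r, ∀ w ∈ Metric.ball (0 : ℂ) r,
      ‖f z - f w‖ ≤ 11 * ρ / 10 * ‖z - w‖) := by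
  obtain ⟨hkey, -⟩ := proof_INJ ρ r f hc
  have hρ := hc.rho_pos
  refine ⟨fun z hz w hw => ?_, fun z hz w hw => ?_⟩
  · have h1 := hkey z hz w hw
    have h3 := norm_sub_le (f z - f w) (f z - f w - ρ * (z - w))
    rw [sub_sub_cancel, norm_mul, Complex.norm_real, Real.norm_of_nonneg hρ.le] at h3
    linarith
  · have h1 := hkey z hz w hw
    have h3 := norm_add_le (f z - f w - ρ * (z - w)) (ρ * (z - w))
    rw [sub_add_cancel, norm_mul, Complex.norm_real, Real.norm_of_nonneg hρ.le] at h3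
    linarith

theorem conf_der_ne {ρ r : ℝ} {f : ℂ → ℂ} (hc : Conf ρ r f) {z : ℂ}
    (hz : z ∈ Metric.ball (0 : ℂ) r) : deriv f z ≠ 0 := by
  intro h0
  have h1 := hc.f_der z hz
  have hρ := hc.rho_pos
  rw [h0, zero_sub, norm_neg, Complex.norm_real, Real.norm_of_nonneg hρ.le] at h1
  linarith

theorem conf_open {ρ r : ℝ} {f : ℂ → ℂ} (hc : Conf ρ r f) {U : Set ℂ} (hU : IsOpen U)
    (hUr : U ⊆ Metric.ball 0 r) : IsOpen (f '' U) := by
  have hopen : IsOpen (Metric.ball (0 : ℂ) r) := Metric.isOpen_ball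
  rw [isOpen_iff_mem_nhds]
  rintro _ ⟨z, hz, rfl⟩
  have hzr : z ∈ Metric.ball (0 : ℂ) r := hUr hz
  have hder : HasStrictDerivAt f (deriv f z) z :=
    (hc.f_diff.analyticAt (hopen.mem_nhds hzr)).hasStrictDerivAt
  rw [← hder.map_nhds_eq (conf_der_ne hc hzr)]
  exact image_mem_map (hU.mem_nhds hz)

/-- `f` is a homeomorphism onto the image on every subset of the disc of radius `r`. -/
theorem conf_homeo {ρ r : ℝ} {f : ℂ → ℂ} (hc : Conf ρ r f) {s : Set ℂ}
    (hs : s ⊆ Metric.ball 0 r) : Nonempty (s ≃ₜ f '' s) := by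
  have hρ := hc.rho_pos
  have hanti : AntilipschitzWith (Real.toNNReal (10 / (9 * ρ))) (s.domRestrict f) := by
    refine AntilipschitzWith.of_le_mul_dist fun x y => ?_
    have h1 := (conf_lip hc).1 x (hs x.2) y (hs y.2)
    rw [Subtype.dist_eq, dist_eq_norm, dist_eq_norm, Real.coe_toNNReal _ (by positivity)]
    have h5 : 10 / (9 * ρ) * (9 * ρ / 10 * ‖(x : ℂ) - y‖) ≤ 10 / (9 * ρ) * ‖f x - f y‖ :=
      mul_le_mul_of_nonneg_left h1 (by positivity)
    have h6 : 10 / (9 * ρ) * (9 * ρ / 10 * ‖(x : ℂ) - y‖) = ‖(x : ℂ) - y‖ := by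
      field_simp
    rw [h6] at h5
    exact h5
  have hlip : LipschitzWith (Real.toNNReal (11 * ρ / 10)) (s.domRestrict f) := by
    refine LipschitzWith.of_dist_le_mul fun x y => ?_
    have h1 := (conf_lip hc).2 x (hs x.2) y (hs y.2)
    rw [Subtype.dist_eq, dist_eq_norm, dist_eq_norm, Real.coe_toNNReal _ (by positivity)]
    exact h1
  have hemb : IsEmbedding (s.domRestrict f) := (hanti.isUniformEmbedding hlip.uniformContinuous).isEmbedding
  have h1 := hemb.toHomeomorph
  rw [range_domRestrict] at h1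
  exact ⟨h1⟩

theorem conf_cont {ρ r : ℝ} {f : ℂ → ℂ} (hc : Conf ρ r f) :
    ContinuousOn f (Metric.ball 0 r) := hc.f_diff.continuousOn

theorem conf_closure {ρ r : ℝ} {f : ℂ → ℂ} (hc : Conf ρ r f) :
    closure (Om f) = f '' Metric.closedBall 0 1 := by
  have hcb : Metric.closedBall (0 : ℂ) 1 ⊆ Metric.ball 0 r :=
    Metric.closedBall_subset_ball hc.r_gt
  have hcomp : IsCompact (f '' Metric.closedBall (0 : ℂ) 1) :=
    (isCompact_closedBall (0 : ℂ) 1).image_of_continuousOn ((conf_cont hc).mono hcb)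
  apply Subset.antisymm
  · exact closure_minimal (image_mono Metric.ball_subset_closedBall) hcomp.isClosed
  · have h1 : Metric.closedBall (0 : ℂ) 1 = closure (Metric.ball 0 1) :=
      (closure_ball (0 : ℂ) one_ne_zero).symm
    rw [h1]
    refine ContinuousOn.image_closure ?_
    rw [← h1]
    exact (conf_cont hc).mono hcb

theorem conf_frontier {ρ r : ℝ} {f : ℂ → ℂ} (hc : Conf ρ r f) :
    frontier (Om f) = f '' Metric.sphere 0 1 := by
  have hcb : Metric.closedBall (0 : ℂ) 1 ⊆ Metric.ball 0 r :=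
    Metric.closedBall_subset_ball hc.r_gt
  have hinj := (proof_INJ ρ r f hc).2
  have ho : IsOpen (Om f) := conf_open hc Metric.isOpen_ball
    (Metric.ball_subset_ball hc.r_gt.le)
  rw [frontier, ho.interior_eq, conf_closure hc, Om, ← (hinj.mono hcb).image_sdiff_subset
    Metric.ball_subset_closedBall, Metric.closedBall_sdiff_ball]

theorem top : S_TOP := by
  intro ρ r f hc
  have hb : Metric.ball (0 : ℂ) 1 ⊆ Metric.ball 0 r := Metric.ball_subset_ball hc.r_gt.le
  have hcb : Metric.closedBall (0 : ℂ) 1 ⊆ Metric.ball 0 r :=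
    Metric.closedBall_subset_ball hc.r_gt
  refine ⟨conf_open hc Metric.isOpen_ball hb, ?_, ?_, ?_, conf_frontier hc, ?_⟩
  · have hcomp : IsCompact (f '' Metric.closedBall (0 : ℂ) 1) :=
      (isCompact_closedBall (0 : ℂ) 1).image_of_continuousOn ((conf_cont hc).mono hcb)
    exact hcomp.isBounded.subset (image_mono Metric.ball_subset_closedBall)
  · refine IsConnected.image ?_ f ((conf_cont hc).mono hb)
    exact (convex_ball (0 : ℂ) 1).isConnected ⟨0, Metric.mem_ball_self one_pos⟩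
  · obtain ⟨e⟩ := conf_homeo hc hb
    have : ContractibleSpace (Metric.ball (0 : ℂ) 1) :=
      (convex_ball (0 : ℂ) 1).contractibleSpace ⟨0, Metric.mem_ball_self one_pos⟩
    have h2 : ContractibleSpace (f '' Metric.ball (0 : ℂ) 1) := e.symm.contractibleSpace
    have h3 : SimplyConnectedSpace (f '' Metric.ball (0 : ℂ) 1) := inferInstance
    exact h3
  · obtain ⟨e⟩ := conf_homeo hc (Metric.sphere_subset_closedBall.trans hcb)
    rw [conf_frontier hc]
    exact ⟨e.symm⟩

end Run7.h298.SC
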